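import Mathlib

set_option autoImplicit false

/-!
# Edge sets larger than the maximum degree plus one without a rainbow matching

For every `Δ ≥ 4` we give a simple bipartite graph of maximum degree `Δ` and pairwise disjoint
sets of `2 * Δ - 2` edges of it, covering all its edges, that have no rainbow matching.
-/

namespace Pool.Agent.Results.MP_75e851_co.DoubleStars

open Finset

/-- A bipartite multigraph with left vertex set `A`, right vertex set `B` and edge set `E`: the
edge `e` joins the left vertex `l e` to the right vertex `r e`. Parallel edges are distinct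
elements of `E` with the same ends. -/
structure BipMultigraph (A B E : Type) where
  /-- left end of an edge -/
  l : E → A
  /-- right end of an edge -/
  r : E → B

variable {A B E : Type}

/-- The multigraph has no parallel edges. -/
def BipMultigraph.IsSimple (G : BipMultigraph A B E) : Prop :=
  ∀ e f : E, G.l e = G.l f → G.r e = G.r f → e = f

open Classical in
/-- The degree of the left vertex `a` in the multigraph formed by the edge set `F`. -/
noncomputable def BipMultigraph.degL (G : BipMultigraph A B E) (F : Finset E) (a : A) : ℕ :=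
  (F.filter fun e => G.l e = a).card

open Classical in
/-- The degree of the right vertex `b` in the multigraph formed by the edge set `F`. -/
noncomputable def BipMultigraph.degR (G : BipMultigraph A B E) (F : Finset E) (b : B) : ℕ :=
  (F.filter fun e => G.r e = b).card

/-- The maximum degree `Δ(F)` of the multigraph formed by the edge set `F`. -/
noncomputable def BipMultigraph.maxDeg [Fintype A] [Fintype B] (G : BipMultigraph A B E)
    (F : Finset E) : ℕ :=
  max (univ.sup (G.degL F)) (univ.sup (G.degR F))

/-- `(S 0, ..., S (m-1))` has a rainbow matching: pairwise distinct edges `f i ∈ S i`, no two of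
which share a vertex. -/
def BipMultigraph.HasRainbowMatching (G : BipMultigraph A B E) {m : ℕ}
    (S : Fin m → Finset E) : Prop :=
  ∃ f : Fin m → E, (∀ i, f i ∈ S i) ∧
    ∀ i j, i ≠ j → f i ≠ f j ∧ G.l (f i) ≠ G.l (f j) ∧ G.r (f i) ≠ G.r (f j)

/-- Vertices on one side of `k` double stars with `n` leaves at each centre: `(j, none)` is the
centre of the `j`-th double star on this side, `(j, some t)` is a leaf. -/
abbrev Side (k n : ℕ) : Type := Fin k × Option (Fin n)

/-- Edges of `k` double stars: `(j, none)` is the central edge of the `j`-th double star,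
`(j, some (inl t))` is a leaf edge at its left centre and `(j, some (inr t))` is a leaf edge at its
right centre. -/
abbrev Edges (k n : ℕ) : Type := Fin k × Option (Fin n ⊕ Fin n)

/-- The disjoint union of `k` double stars. -/
def DS (k n : ℕ) : BipMultigraph (Side k n) (Side k n) (Edges k n) where
  l e := match e.2 with
    | none => (e.1, none)
    | some (Sum.inl _) => (e.1, none)
    | some (Sum.inr t) => (e.1, some t)
  r e := match e.2 with
    | none => (e.1, none)
    | some (Sum.inl t) => (e.1, some t)
    | some (Sum.inr _) => (e.1, none)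

/-- The sets: the set with index `0` consists of the central edges and the set with index `j + 1`
consists of the leaf edges of the `j`-th double star. -/
def sets (k n : ℕ) : Fin (k + 1) → Finset (Edges k n) :=
  Fin.cons (univ.image fun j => (j, none)) fun j => univ.image fun x => (j, some x)

lemma mem_zero {k n : ℕ} (e : Edges k n) : e ∈ sets k n 0 ↔ e.2 = none := by
  simp only [sets, Fin.cons_zero, mem_image, mem_univ, true_and]
  constructor
  · rintro ⟨j, rfl⟩; rfl
  · intro h; exact ⟨e.1, by rw [← h]⟩

lemma mem_succ {k n : ℕ} (j : Fin k) (e : Edges k n) :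
    e ∈ sets k n j.succ ↔ e.1 = j ∧ e.2 ≠ none := by
  simp only [sets, Fin.cons_succ, mem_image, mem_univ, true_and]
  constructor
  · rintro ⟨x, rfl⟩; exact ⟨rfl, by simp⟩
  · rintro ⟨h1, h2⟩
    obtain ⟨x, hx⟩ := Option.ne_none_iff_exists'.1 h2
    exact ⟨x, by rw [← h1, ← hx]⟩

lemma simple (k n : ℕ) : (DS k n).IsSimple := by
  rintro ⟨i, x⟩ ⟨j, y⟩ h1 h2
  rcases x with _ | x | x <;> rcases y with _ | y | y <;>
    simp only [DS, Prod.mk.injEq, reduceCtorEq, and_false, and_true, Option.some.injEq] at h1 h2
  · rw [h1]
  · rw [h1, h2.2]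
  · rw [h2, h1.2]

lemma disj (k n : ℕ) (i j : Fin (k + 1)) (h : i ≠ j) : Disjoint (sets k n i) (sets k n j) := by
  rw [Finset.disjoint_left]
  intro e h1 h2
  induction i using Fin.cases with
  | zero =>
    induction j using Fin.cases with
    | zero => exact h rfl
    | succ j => exact ((mem_succ j e).1 h2).2 ((mem_zero e).1 h1)
  | succ i =>
    induction j using Fin.cases with
    | zero => exact ((mem_succ i e).1 h1).2 ((mem_zero e).1 h2)
    | succ j =>
      apply h
      rw [← ((mem_succ i e).1 h1).1, ← ((mem_succ j e).1 h2).1]

lemma cover (k n : ℕ) (e : Edges k n) : ∃ i, e ∈ sets k n i := by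
  by_cases h : e.2 = none
  · exact ⟨0, (mem_zero e).2 h⟩
  · exact ⟨e.1.succ, (mem_succ _ e).2 ⟨rfl, h⟩⟩

lemma card_sets (n : ℕ) (i : Fin (2 * n + 1)) : (sets (2 * n) n i).card = 2 * n := by
  induction i using Fin.cases with
  | zero =>
    simp only [sets, Fin.cons_zero]
    rw [Finset.card_image_of_injective _ (fun a b hab => by simpa using hab)]
    simp
  | succ j =>
    simp only [sets, Fin.cons_succ]
    rw [Finset.card_image_of_injective _ (fun a b hab => by simpa using hab)]
    simp [two_mul]

lemma no_rainbow (k n : ℕ) : ¬ (DS k n).HasRainbowMatching (sets k n) := by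
  rintro ⟨f, hf, hd⟩
  have h0 := (mem_zero _).1 (hf 0)
  have h1 := (mem_succ _ _).1 (hf (f 0).1.succ)
  have h3 := hd 0 (f 0).1.succ (Fin.succ_ne_zero _).symm
  generalize f (f 0).1.succ = y at h1 h3
  generalize f 0 = x at h0 h1 h3
  obtain ⟨j, x⟩ := x
  obtain ⟨i, y⟩ := y
  simp only at h0 h1
  subst h0
  obtain ⟨h1, h2⟩ := h1
  subst h1
  rcases y with _ | y | y
  · exact h2 rfl
  · exact h3.2.1 rfl
  · exact h3.2.2 rfl

lemma card_filter_eq {α : Type} (F T : Finset α) (p : α → Prop) (inst : DecidablePred p)
    (h : ∀ e, e ∈ T ↔ e ∈ F ∧ p e) : (@Finset.filter _ p inst F).card = T.card := by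
  congr 1
  ext e
  rw [Finset.mem_filter, h]

lemma maxDeg_eq (k n : ℕ) (hk : 0 < k) : (DS k n).maxDeg univ = n + 1 := by
  have hL : ∀ a : Side k n, (DS k n).degL univ a = if a.2 = none then n + 1 else 1 := by
    rintro ⟨j, x⟩
    unfold BipMultigraph.degL
    rcases x with _ | t
    · rw [card_filter_eq univ
        (insert (j, none) (univ.image fun t : Fin n => ((j, some (Sum.inl t)) : Edges k n)))]
      · rw [Finset.card_insert_of_notMem (by simp),
          Finset.card_image_of_injective _ (fun a b hab => by simpa using hab)]
        simp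
      · rintro ⟨i, y⟩
        rcases y with _ | y | y <;> simp [DS, eq_comm]
    · rw [card_filter_eq univ {((j, some (Sum.inr t)) : Edges k n)}]
      · simp
      · rintro ⟨i, y⟩
        rcases y with _ | y | y <;> simp [DS]
  have hR : ∀ a : Side k n, (DS k n).degR univ a = if a.2 = none then n + 1 else 1 := by
    rintro ⟨j, x⟩
    unfold BipMultigraph.degR
    rcases x with _ | t
    · rw [card_filter_eq univ
        (insert (j, none) (univ.image fun t : Fin n => ((j, some (Sum.inr t)) : Edges k n)))]
      · rw [Finset.card_insert_of_notMem (by simp),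
          Finset.card_image_of_injective _ (fun a b hab => by simpa using hab)]
        simp
      · rintro ⟨i, y⟩
        rcases y with _ | y | y <;> simp [DS, eq_comm]
    · rw [card_filter_eq univ {((j, some (Sum.inl t)) : Edges k n)}]
      · simp
      · rintro ⟨i, y⟩
        rcases y with _ | y | y <;> simp [DS]
  have key : ∀ g : Side k n → ℕ, (∀ a, g a = if a.2 = none then n + 1 else 1) →
      univ.sup g = n + 1 := by
    intro g hg
    apply le_antisymm
    · apply Finset.sup_le
      intro a _
      rw [hg]
      split_ifs <;> omega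
    · have := Finset.le_sup (f := g) (Finset.mem_univ ((⟨0, hk⟩, none) : Side k n))
      rw [hg] at this
      simpa using this
  unfold BipMultigraph.maxDeg
  rw [key _ hL, key _ hR, max_self]

/-- **Q1 is false.** For every `Δ ≥ 4` there are a simple bipartite graph and finitely many pairwise
disjoint sets of its edges, each with exactly `2 * Δ - 2 > Δ + 1` edges, whose union has maximum
degree exactly `Δ` and which have no rainbow matching. -/
theorem result (Δ : ℕ) (hΔ : 4 ≤ Δ) :
    ∃ (A B E : Type) (_ : Fintype A) (_ : Fintype B) (_ : Fintype E) (_ : DecidableEq E)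
      (G : BipMultigraph A B E) (m : ℕ) (S : Fin m → Finset E),
      G.IsSimple ∧
      (∀ i j, i ≠ j → Disjoint (S i) (S j)) ∧
      G.maxDeg (univ.biUnion S) = Δ ∧
      (∀ i, (S i).card = 2 * Δ - 2) ∧
      (∀ i, G.maxDeg (univ.biUnion S) + 1 < (S i).card) ∧
      ¬ G.HasRainbowMatching S := by
  obtain ⟨n, rfl⟩ : ∃ n, Δ = n + 1 := ⟨Δ - 1, by omega⟩
  have hU : univ.biUnion (sets (2 * n) n) = univ := by
    ext e
    simp only [mem_biUnion, mem_univ, true_and, iff_true]
    exact cover _ _ e
  have hM : (DS (2 * n) n).maxDeg (univ.biUnion (sets (2 * n) n)) = n + 1 := by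
    rw [hU]; exact maxDeg_eq _ _ (by omega)
  refine ⟨Side (2 * n) n, Side (2 * n) n, Edges (2 * n) n, inferInstance, inferInstance,
    inferInstance, inferInstance, DS (2 * n) n, 2 * n + 1, sets (2 * n) n, simple _ _,
    disj _ _, hM, ?_, ?_, no_rainbow _ _⟩
  · intro i
    rw [card_sets]
    omega
  · intro i
    rw [card_sets, hM]
    omega

end Pool.Agent.Results.MP_75e851_co.DoubleStars
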