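import Mathlib

set_option autoImplicit false

/-!
# Matchings larger than the maximum degree plus one without a rainbow matching

A bipartite multigraph of maximum degree `3` with `18` pairwise disjoint matchings of size `5` that
has no rainbow matching.
-/

namespace Pool.Agent.Results.MP_75e851_co.Matchings

open Finset

/-- A bipartite multigraph with left vertex set `A`, right vertex set `B` and edge set `E`: the
edge `e` joins the left vertex `l e` to the right vertex `r e`. Parallel edges are distinct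
elements of `E` with the same ends. -/
structure BipMultigraph (A B E : Type) where
  /-- left end of an edge -/
  l : E → A
  /-- right end of an edge -/
  r : E → B

variable {A B E : Type}

open Classical in
/-- The degree of the left vertex `a` in the multigraph formed by the edge set `F`. -/
noncomputable def BipMultigraph.degL (G : BipMultigraph A B E) (F : Finset E) (a : A) : ℕ :=
  (F.filter fun e => G.l e = a).card

open Classical in
/-- The degree of the right vertex `b` in the multigraph formed by the edge set `F`. -/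
noncomputable def BipMultigraph.degR (G : BipMultigraph A B E) (F : Finset E) (b : B) : ℕ :=
  (F.filter fun e => G.r e = b).card

/-- The maximum degree `Δ(F)` of the multigraph formed by the edge set `F`. -/
noncomputable def BipMultigraph.maxDeg [Fintype A] [Fintype B] (G : BipMultigraph A B E)
    (F : Finset E) : ℕ :=
  max (univ.sup (G.degL F)) (univ.sup (G.degR F))

/-- The edge set `F` is a matching: no two of its edges share a vertex. -/
def BipMultigraph.IsMatching (G : BipMultigraph A B E) (F : Finset E) : Prop :=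
  ∀ e ∈ F, ∀ f ∈ F, e ≠ f → G.l e ≠ G.l f ∧ G.r e ≠ G.r f

/-- `(S 0, ..., S (m-1))` has a rainbow matching: pairwise distinct edges `f i ∈ S i`, no two of
which share a vertex. -/
def BipMultigraph.HasRainbowMatching (G : BipMultigraph A B E) {m : ℕ}
    (S : Fin m → Finset E) : Prop :=
  ∃ f : Fin m → E, (∀ i, f i ∈ S i) ∧
    ∀ i j, i ≠ j → f i ≠ f j ∧ G.l (f i) ≠ G.l (f j) ∧ G.r (f i) ≠ G.r (f j)

/-- left ends of the edges: row `i`, column `t` is the left end of the `t`-th edge of the `i`-th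
matching -/
def tabL : List (List ℕ) :=
   [[0, 1, 2, 3, 4],
    [0, 1, 2, 3, 5],
    [2, 3, 4, 5, 30],
    [6, 7, 8, 9, 30],
    [6, 7, 8, 9, 31],
    [8, 9, 4, 5, 31],
    [10, 11, 12, 13, 14],
    [10, 11, 12, 13, 15],
    [12, 13, 14, 15, 30],
    [16, 17, 18, 19, 31],
    [16, 17, 18, 19, 32],
    [18, 19, 14, 15, 33],
    [20, 21, 22, 23, 24],
    [20, 21, 22, 23, 25],
    [22, 23, 24, 25, 32],
    [26, 27, 28, 29, 32],
    [26, 27, 28, 29, 33],
    [28, 29, 24, 25, 33]]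

/-- right ends of the edges -/
def tabR : List (List ℕ) :=
   [[0, 1, 2, 3, 4],
    [1, 0, 2, 3, 5],
    [3, 2, 4, 5, 30],
    [6, 7, 8, 9, 30],
    [7, 6, 8, 9, 31],
    [9, 8, 5, 4, 31],
    [10, 11, 12, 13, 14],
    [11, 10, 12, 13, 15],
    [13, 12, 14, 15, 31],
    [16, 17, 18, 19, 30],
    [17, 16, 18, 19, 33],
    [19, 18, 15, 14, 32],
    [20, 21, 22, 23, 24],
    [21, 20, 22, 23, 25],
    [23, 22, 24, 25, 32],
    [26, 27, 28, 29, 32],
    [27, 26, 28, 29, 33],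
    [29, 28, 25, 24, 33]]

/-- The multigraph: `18 * 5` edges on `34 + 34` vertices. -/
def G : BipMultigraph (Fin 34) (Fin 34) (Fin 18 × Fin 5) where
  l e := Fin.ofNat 34 ((tabL.getD e.1 []).getD e.2 0)
  r e := Fin.ofNat 34 ((tabR.getD e.1 []).getD e.2 0)

/-- The matchings. -/
def M (i : Fin 18) : Finset (Fin 18 × Fin 5) := univ.image fun t => (i, t)

lemma mem_M (i : Fin 18) (e : Fin 18 × Fin 5) : e ∈ M i ↔ e.1 = i := by
  simp only [M, mem_image, mem_univ, true_and]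
  constructor
  · rintro ⟨x, rfl⟩; rfl
  · rintro h; exact ⟨e.2, by rw [← h]⟩

lemma isMatching (i : Fin 18) : G.IsMatching (M i) := by
  have key : ∀ i : Fin 18, ∀ s t : Fin 5, s ≠ t →
      G.l (i, s) ≠ G.l (i, t) ∧ G.r (i, s) ≠ G.r (i, t) := by decide
  rintro ⟨a, s⟩ he ⟨b, t⟩ hf hne
  rw [mem_M] at he hf
  simp only at he hf
  subst he
  subst hf
  exact key _ s t (fun h => hne (by rw [h]))

lemma card_filter_le_of {α : Type} (F T : Finset α) (p : α → Prop) (inst : DecidablePred p)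
    (h : ∀ e, p e → e ∈ T) : (@Finset.filter _ p inst F).card ≤ T.card := by
  refine Finset.card_le_card ?_
  intro e he
  rw [Finset.mem_filter] at he
  exact h e he.2

lemma maxDeg_eq : G.maxDeg univ = 3 := by
  have h1 : ∀ a : Fin 34, (univ.filter fun e => G.l e = a).card ≤ 3 := by decide
  have h2 : ∀ a : Fin 34, (univ.filter fun e => G.r e = a).card ≤ 3 := by decide
  apply le_antisymm
  · apply max_le
    · apply Finset.sup_le
      intro a _
      exact (card_filter_le_of _ _ _ _ (fun e he => by simpa using he)).trans (h1 a)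
    · apply Finset.sup_le
      intro a _
      exact (card_filter_le_of _ _ _ _ (fun e he => by simpa using he)).trans (h2 a)
  · refine le_trans ?_ (le_max_left _ _)
    refine le_trans ?_ (Finset.le_sup (Finset.mem_univ (2 : Fin 34)))
    have h3 : ({(0, 2), (1, 2), (2, 0)} : Finset (Fin 18 × Fin 5)).card = 3 := by decide
    rw [← h3]
    unfold BipMultigraph.degL
    apply Finset.card_le_card
    intro e he
    have h4 : ∀ e ∈ ({(0, 2), (1, 2), (2, 0)} : Finset (Fin 18 × Fin 5)), G.l e = 2 := by decide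
    simp only [mem_filter, mem_univ, true_and]
    exact h4 e he

/-- the two edges have no common vertex -/
abbrev Ok (i j : Fin 18) (s t : Fin 5) : Prop :=
  G.l (i, s) ≠ G.l (j, t) ∧ G.r (i, s) ≠ G.r (j, t)

/-- Within each group of six matchings, one of the last four must use its fifth edge. -/
lemma exit (f : Fin 18 → Fin 5) (hf : ∀ i j, i ≠ j → Ok i j (f i) (f j)) (a b c d e g : Fin 18)
    (h : (a = 0 ∧ b = 1 ∧ c = 2 ∧ d = 3 ∧ e = 4 ∧ g = 5) ∨
      (a = 6 ∧ b = 7 ∧ c = 8 ∧ d = 9 ∧ e = 10 ∧ g = 11) ∨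
      (a = 12 ∧ b = 13 ∧ c = 14 ∧ d = 15 ∧ e = 16 ∧ g = 17)) :
    f c = 4 ∨ f d = 4 ∨ f e = 4 ∨ f g = 4 := by
  have k1 : ∀ s t, Ok a b s t → ¬ (s.val < 2 ∧ t.val < 2) := by
    rcases h with ⟨rfl, rfl, rfl, rfl, rfl, rfl⟩ | ⟨rfl, rfl, rfl, rfl, rfl, rfl⟩ |
      ⟨rfl, rfl, rfl, rfl, rfl, rfl⟩ <;> decide
  have k2 : ∀ s t, Ok a c s t → ¬ (2 ≤ s.val ∧ s.val < 4 ∧ t.val < 2) := by
    rcases h with ⟨rfl, rfl, rfl, rfl, rfl, rfl⟩ | ⟨rfl, rfl, rfl, rfl, rfl, rfl⟩ |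
      ⟨rfl, rfl, rfl, rfl, rfl, rfl⟩ <;> decide
  have k3 : ∀ s t, Ok b c s t → ¬ (2 ≤ s.val ∧ s.val < 4 ∧ t.val < 2) := by
    rcases h with ⟨rfl, rfl, rfl, rfl, rfl, rfl⟩ | ⟨rfl, rfl, rfl, rfl, rfl, rfl⟩ |
      ⟨rfl, rfl, rfl, rfl, rfl, rfl⟩ <;> decide
  have k4 : ∀ s t, Ok a g s t → ¬ (s.val = 4 ∧ 2 ≤ t.val ∧ t.val < 4) := by
    rcases h with ⟨rfl, rfl, rfl, rfl, rfl, rfl⟩ | ⟨rfl, rfl, rfl, rfl, rfl, rfl⟩ |
      ⟨rfl, rfl, rfl, rfl, rfl, rfl⟩ <;> decide
  have k5 : ∀ s t, Ok b g s t → ¬ (s.val = 4 ∧ 2 ≤ t.val ∧ t.val < 4) := by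
    rcases h with ⟨rfl, rfl, rfl, rfl, rfl, rfl⟩ | ⟨rfl, rfl, rfl, rfl, rfl, rfl⟩ |
      ⟨rfl, rfl, rfl, rfl, rfl, rfl⟩ <;> decide
  have k6 : ∀ s t, Ok c g s t → ¬ (2 ≤ s.val ∧ s.val < 4 ∧ 2 ≤ t.val ∧ t.val < 4) := by
    rcases h with ⟨rfl, rfl, rfl, rfl, rfl, rfl⟩ | ⟨rfl, rfl, rfl, rfl, rfl, rfl⟩ |
      ⟨rfl, rfl, rfl, rfl, rfl, rfl⟩ <;> decide
  have k7 : ∀ s t, Ok d e s t → ¬ (s.val < 2 ∧ t.val < 2) := by
    rcases h with ⟨rfl, rfl, rfl, rfl, rfl, rfl⟩ | ⟨rfl, rfl, rfl, rfl, rfl, rfl⟩ |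
      ⟨rfl, rfl, rfl, rfl, rfl, rfl⟩ <;> decide
  have k8 : ∀ s t, Ok d g s t → ¬ (2 ≤ s.val ∧ s.val < 4 ∧ t.val < 2) := by
    rcases h with ⟨rfl, rfl, rfl, rfl, rfl, rfl⟩ | ⟨rfl, rfl, rfl, rfl, rfl, rfl⟩ |
      ⟨rfl, rfl, rfl, rfl, rfl, rfl⟩ <;> decide
  have k9 : ∀ s t, Ok e g s t → ¬ (2 ≤ s.val ∧ s.val < 4 ∧ t.val < 2) := by
    rcases h with ⟨rfl, rfl, rfl, rfl, rfl, rfl⟩ | ⟨rfl, rfl, rfl, rfl, rfl, rfl⟩ |
      ⟨rfl, rfl, rfl, rfl, rfl, rfl⟩ <;> decide
  have hne : a ≠ b ∧ a ≠ c ∧ b ≠ c ∧ a ≠ g ∧ b ≠ g ∧ c ≠ g ∧ d ≠ e ∧ d ≠ g ∧ e ≠ g := by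
    rcases h with ⟨rfl, rfl, rfl, rfl, rfl, rfl⟩ | ⟨rfl, rfl, rfl, rfl, rfl, rfl⟩ |
      ⟨rfl, rfl, rfl, rfl, rfl, rfl⟩ <;> decide
  obtain ⟨n1, n2, n3, n4, n5, n6, n7, n8, n9⟩ := hne
  have j1 := k1 _ _ (hf _ _ n1)
  have j2 := k2 _ _ (hf _ _ n2)
  have j3 := k3 _ _ (hf _ _ n3)
  have j4 := k4 _ _ (hf _ _ n4)
  have j5 := k5 _ _ (hf _ _ n5)
  have j6 := k6 _ _ (hf _ _ n6)
  have j7 := k7 _ _ (hf _ _ n7)
  have j8 := k8 _ _ (hf _ _ n8)
  have j9 := k9 _ _ (hf _ _ n9)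
  have e1 := (f a).isLt
  have e2 := (f b).isLt
  have e3 := (f c).isLt
  have e4 := (f d).isLt
  have e5 := (f e).isLt
  have e6 := (f g).isLt
  have v : ∀ x : Fin 5, x = 4 ↔ x.val = 4 := by decide
  rw [v, v, v, v]
  omega

lemma no_rainbow : ¬ G.HasRainbowMatching M := by
  rintro ⟨F, hF, hd⟩
  obtain ⟨f, hf⟩ : ∃ f : Fin 18 → Fin 5, ∀ i, F i = (i, f i) := by
    refine ⟨fun i => (F i).2, fun i => ?_⟩
    have := (mem_M i (F i)).1 (hF i)
    exact Prod.ext this rfl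
  have hok : ∀ i j, i ≠ j → Ok i j (f i) (f j) := by
    intro i j hij
    have := (hd i j hij).2
    rw [hf i, hf j] at this
    exact this
  have x0 := exit f hok 0 1 2 3 4 5 (by decide)
  have x1 := exit f hok 6 7 8 9 10 11 (by decide)
  have x2 := exit f hok 12 13 14 15 16 17 (by decide)
  have no : ∀ i j : Fin 18, i ≠ j → f i = 4 → f j = 4 → Ok i j 4 4 := by
    intro i j hij h1 h2
    have := hok i j hij
    rwa [h1, h2] at this
  have c1 : ∀ i j : Fin 18, i ∈ ([2, 3, 4, 5] : List (Fin 18)) → j ∈ ([8, 9] : List (Fin 18)) →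
      f i = 4 → f j = 4 → False := by
    intro i j hi hj h1 h2
    have h3 : ∀ i ∈ ([2, 3, 4, 5] : List (Fin 18)), ∀ j ∈ ([8, 9] : List (Fin 18)),
      i ≠ j ∧ ¬ Ok i j 4 4 := by decide
    exact (h3 i hi j hj).2 (no i j (h3 i hi j hj).1 h1 h2)
  have c2 : ∀ i j : Fin 18, i ∈ ([14, 15, 16, 17] : List (Fin 18)) →
      j ∈ ([10, 11] : List (Fin 18)) → f i = 4 → f j = 4 → False := by
    intro i j hi hj h1 h2
    have h3 : ∀ i ∈ ([14, 15, 16, 17] : List (Fin 18)), ∀ j ∈ ([10, 11] : List (Fin 18)),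
      i ≠ j ∧ ¬ Ok i j 4 4 := by decide
    exact (h3 i hi j hj).2 (no i j (h3 i hi j hj).1 h1 h2)
  obtain ⟨i, hi, h1⟩ : ∃ i, i ∈ ([2, 3, 4, 5] : List (Fin 18)) ∧ f i = 4 := by
    rcases x0 with h | h | h | h
    exacts [⟨2, by decide, h⟩, ⟨3, by decide, h⟩, ⟨4, by decide, h⟩, ⟨5, by decide, h⟩]
  obtain ⟨j, hj, h2⟩ : ∃ i, i ∈ ([14, 15, 16, 17] : List (Fin 18)) ∧ f i = 4 := by
    rcases x2 with h | h | h | h
    exacts [⟨14, by decide, h⟩, ⟨15, by decide, h⟩, ⟨16, by decide, h⟩, ⟨17, by decide, h⟩]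
  rcases x1 with h | h | h | h
  · exact c1 i 8 hi (by decide) h1 h
  · exact c1 i 9 hi (by decide) h1 h
  · exact c2 j 10 hj (by decide) h2 h
  · exact c2 j 11 hj (by decide) h2 h

/-- **Q1 is false even for matchings.** There are a bipartite multigraph and `18` pairwise disjoint
matchings in it, each with exactly `5` edges, whose union has maximum degree exactly `3` and which
have no rainbow matching. -/
theorem result :
    ∃ (A B E : Type) (_ : Fintype A) (_ : Fintype B) (_ : Fintype E) (_ : DecidableEq E)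
      (G : BipMultigraph A B E) (S : Fin 18 → Finset E),
      (∀ i, G.IsMatching (S i)) ∧
      (∀ i j, i ≠ j → Disjoint (S i) (S j)) ∧
      G.maxDeg (univ.biUnion S) = 3 ∧
      (∀ i, (S i).card = 5) ∧
      ¬ G.HasRainbowMatching S := by
  have hU : univ.biUnion M = univ := by
    ext e
    simp only [mem_biUnion, mem_univ, true_and, iff_true]
    exact ⟨e.1, (mem_M _ _).2 rfl⟩
  refine ⟨Fin 34, Fin 34, Fin 18 × Fin 5, inferInstance, inferInstance,
    inferInstance, inferInstance, G, M, isMatching, ?_, ?_, ?_, no_rainbow⟩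
  · intro i j hij
    rw [Finset.disjoint_left]
    intro e h1 h2
    rw [mem_M] at h1 h2
    exact hij (h1.symm.trans h2)
  · rw [hU]; exact maxDeg_eq
  · intro i
    unfold M
    rw [Finset.card_image_of_injective _ (fun a b hab => by simpa using hab)]
    simp

end Pool.Agent.Results.MP_75e851_co.Matchings
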